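import Mathlib

/-!
# The divisors of Galkin and Shinder and the untwisted loci of cubic fourfolds

The algebraic classes `A(X)` of a smooth cubic fourfold form a lattice with a distinguished
element `h` (the square of the hyperplane class) of square 3 which is characteristic.
`InDivisor d` is the condition `X ∈ C_d`; the Fano variety of lines of `X` is birational to a
Hilbert square exactly when `InDivisor d` holds for some `d` with `a^2 d = 2n^2+2n+2`.
-/

namespace Pool.Agent.Results.MP_4d0966_ag.UntwistedLoci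

/-- A torsion free group with a symmetric integral bilinear form and an element `h` of square
three with `x.x = x.h` modulo two for all `x`: the formal properties of the group
`A(X) = H^{2,2}(X) ∩ H^4(X, Z)` of a smooth cubic fourfold with `h` the square of the
hyperplane class. -/
structure CubicLattice (L : Type) [AddCommGroup L] where
  /-- the intersection form -/
  form : L →+ L →+ ℤ
  /-- the form is symmetric -/
  symm : ∀ x y, form x y = form y x
  /-- the square of the hyperplane class -/
  h : L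
  /-- the degree is three -/
  h_sq : form h h = 3
  /-- `h` is characteristic -/
  char : ∀ x, Even (form x x - form x h)
  /-- no torsion -/
  torsionFree : ∀ (m : ℤ) (x : L), m ≠ 0 → m • x = 0 → x = 0

variable {L : Type} [AddCommGroup L]

/-- The discriminant of the form on the group spanned by `h` and `v`. -/
def CubicLattice.disc (A : CubicLattice L) (v : L) : ℤ :=
  3 * A.form v v - A.form A.h v ^ 2

/-- The group spanned by `h` and `v` is saturated. -/
def CubicLattice.Saturated (A : CubicLattice L) (v : L) : Prop :=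
  ∀ (x : L) (m a b : ℤ), m ≠ 0 → m • x = a • A.h + b • v →
    ∃ a' b' : ℤ, x = a' • A.h + b' • v

/-- There is a saturated subgroup of rank two that contains `h` and has discriminant `d`
(for `d > 0` this is the condition that `X` lies in the divisor `C_d`). -/
def CubicLattice.InDivisor (A : CubicLattice L) (d : ℤ) : Prop :=
  0 < d ∧ ∃ v : L, A.Saturated v ∧ A.disc v = d

/-- Condition (***): `a^2 d = 2n^2+2n+2` for integers `n` and `a > 0`. -/
def HilbertSquareDisc (d : ℤ) : Prop :=
  ∃ a n : ℤ, 0 < a ∧ a ^ 2 * d = 2 * n ^ 2 + 2 * n + 2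

/-- `X` lies in a divisor `C_d` with `d` as in condition (***). -/
def CubicLattice.HasHilbertSquare (A : CubicLattice L) : Prop :=
  ∃ d : ℤ, A.InDivisor d ∧ HilbertSquareDisc d

/-! ### Formal properties -/

theorem disc_comb (A : CubicLattice L) (m l : ℤ) (v : L) :
    A.disc (m • v + l • A.h) = m ^ 2 * A.disc v := by
  have h1 : A.form (m • v + l • A.h) (m • v + l • A.h)
      = m ^ 2 * A.form v v + 2 * m * l * A.form A.h v + 3 * l ^ 2 := by
    simp only [map_add, map_zsmul, AddMonoidHom.add_apply, AddMonoidHom.coe_smul,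
      Pi.smul_apply, smul_eq_mul, A.h_sq, A.symm v A.h]
    ring
  have h2 : A.form A.h (m • v + l • A.h) = m * A.form A.h v + 3 * l := by
    simp only [map_add, map_zsmul, smul_eq_mul, A.h_sq]
    ring
  simp only [CubicLattice.disc, h1, h2]
  ring

/-- `h` is primitive. -/
theorem h_prim (A : CubicLattice L) {g c : ℤ} {z : L} (hg : g ≠ 0) (h : g • z = c • A.h) :
    ∃ c', c = g * c' ∧ z = c' • A.h := by
  have h1 : g ^ 2 * A.form z z = 3 * c ^ 2 := by
    have := congrArg (fun t => A.form t t) h
    simp only [map_zsmul, AddMonoidHom.coe_smul, Pi.smul_apply, smul_eq_mul, A.h_sq] at this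
    linarith
  have h2 : g ∣ c := by
    have h3 : g ^ 2 ∣ 3 * c ^ 2 := ⟨_, h1.symm⟩
    -- three is squarefree
    by_cases hc : c = 0
    · simp [hc]
    obtain ⟨d, hd, g', c', hcop, hg', hc'⟩ : ∃ d : ℤ, d ≠ 0 ∧ ∃ g' c' : ℤ,
        IsCoprime g' c' ∧ g = d * g' ∧ c = d * c' := by
      refine ⟨(Int.gcd g c : ℤ), ?_, ?_⟩
      · have : Int.gcd g c ≠ 0 := by
          intro h0
          exact hg (Int.eq_zero_of_gcd_eq_zero_left h0)
        exact_mod_cast this
      · obtain ⟨g', hg'⟩ := Int.gcd_dvd_left g c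
        obtain ⟨c', hc'⟩ := Int.gcd_dvd_right g c
        refine ⟨g', c', ?_, hg', hc'⟩
        have h0 : (Int.gcd g c : ℤ) ≠ 0 := by
          have : Int.gcd g c ≠ 0 := by
            intro h0
            exact hg (Int.eq_zero_of_gcd_eq_zero_left h0)
          exact_mod_cast this
        have hb := Int.gcd_eq_gcd_ab g c
        refine ⟨Int.gcdA g c, Int.gcdB g c, ?_⟩
        apply mul_left_cancel₀ h0
        calc (Int.gcd g c : ℤ) * (Int.gcdA g c * g' + Int.gcdB g c * c')
            = ((Int.gcd g c : ℤ) * g') * Int.gcdA g c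
              + ((Int.gcd g c : ℤ) * c') * Int.gcdB g c := by ring
          _ = g * Int.gcdA g c + c * Int.gcdB g c := by rw [← hg', ← hc']
          _ = (Int.gcd g c : ℤ) * 1 := by rw [← hb, mul_one]
    have h4 : g' ^ 2 ∣ 3 * c' ^ 2 := by
      obtain ⟨t, ht⟩ := h3
      refine ⟨t, ?_⟩
      have hd2 : d ^ 2 ≠ 0 := pow_ne_zero 2 hd
      apply mul_left_cancel₀ hd2
      rw [hg', hc'] at ht
      linear_combination ht
    have h5 : g' ^ 2 ∣ 3 := by
      have : IsCoprime (g' ^ 2) (c' ^ 2) := hcop.pow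
      exact this.dvd_of_dvd_mul_right h4
    have h6 : g' ^ 2 = 1 := by
      have hpos : 0 < g' ^ 2 := by
        have : g' ≠ 0 := by
          rintro rfl
          apply hg
          rw [hg', mul_zero]
        positivity
      have hle : g' ^ 2 ≤ 3 := Int.le_of_dvd (by norm_num) h5
      have : |g'| < 2 := by
        by_contra hcon
        push Not at hcon
        have : 4 ≤ g' ^ 2 := by
          rw [← sq_abs]
          nlinarith
        linarith
      have h7 : g' = 1 ∨ g' = -1 ∨ g' = 0 := by
        rw [abs_lt] at this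
        omega
      rcases h7 with h7 | h7 | h7
      · rw [h7]; norm_num
      · rw [h7]; norm_num
      · rw [h7] at hpos; norm_num at hpos
    have h8 : g' = 1 ∨ g' = -1 := by
      have : (g' - 1) * (g' + 1) = 0 := by linear_combination h6
      rcases mul_eq_zero.mp this with h | h
      · left; omega
      · right; omega
    rcases h8 with h8 | h8
    · exact ⟨c', by rw [hg', hc', h8]; ring⟩
    · exact ⟨-c', by rw [hg', hc', h8]; ring⟩
  obtain ⟨c', hc'⟩ := h2
  refine ⟨c', hc', ?_⟩
  have h9 : g • (z - c' • A.h) = 0 := by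
    rw [smul_sub, h, hc', mul_smul, sub_self]
  exact sub_eq_zero.mp (A.torsionFree g _ hg h9)

/-- Every `v` with positive discriminant gives a saturated group of rank two. -/
theorem exists_saturated (A : CubicLattice L) (v : L) (hv : 0 < A.disc v) :
    ∃ (w : L) (m : ℤ), 0 < m ∧ A.Saturated w ∧ m ^ 2 * A.disc w = A.disc v := by
  classical
  -- the set of possible indices
  let S : Set ℕ := {m | 0 < m ∧ ∃ (w : L) (l : ℤ), v = (m : ℤ) • w + l • A.h}
  have hS1 : (1 : ℕ) ∈ S := ⟨one_pos, v, 0, by simp⟩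
  have hbound : ∀ m ∈ S, m ≤ (A.disc v).toNat := by
    rintro m ⟨hm, w, l, hw⟩
    have h1 : (m : ℤ) ^ 2 * A.disc w = A.disc v := by rw [hw, disc_comb]
    have hm' : (0 : ℤ) < m := by exact_mod_cast hm
    have h2 : 0 < A.disc w := by
      by_contra hcon
      push Not at hcon
      have : (m : ℤ) ^ 2 * A.disc w ≤ 0 := mul_nonpos_of_nonneg_of_nonpos (by positivity) hcon
      linarith
    have h3 : (m : ℤ) ≤ A.disc v := by nlinarith
    have := Int.toNat_le_toNat h3
    simpa using this
  have hfin : S.Finite := Set.Finite.subset (Set.finite_Iic _) hbound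
  obtain ⟨M, hMS, hMmax⟩ := hfin.exists_maximal ⟨1, hS1⟩ 
  obtain ⟨hM0, w, l, hw⟩ := hMS
  refine ⟨w, M, by exact_mod_cast hM0, ?_, by rw [hw, disc_comb]⟩
  have hM0' : (0 : ℤ) < M := by exact_mod_cast hM0
  intro x k a b hk hx
  -- reduce to `k` positive
  set g : ℤ := (Int.gcd k b : ℤ) with hg
  have hg0 : g ≠ 0 := by
    have h0 : Int.gcd k b ≠ 0 := fun h0 => hk (Int.eq_zero_of_gcd_eq_zero_left h0)
    rw [hg]
    exact Int.natCast_ne_zero.mpr h0
  have hgpos : 0 < g := lt_of_le_of_ne (by positivity) (Ne.symm hg0)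
  obtain ⟨k', hk'⟩ : g ∣ k := Int.gcd_dvd_left k b
  obtain ⟨b', hb'⟩ : g ∣ b := Int.gcd_dvd_right k b
  set r := Int.gcdB k b
  set s := Int.gcdA k b
  have hbez : g = k * s + b * r := Int.gcd_eq_gcd_ab k b
  -- `u = r x + s w`
  have hu : g • (k' • (r • x + s • w) - w) = (r * a) • A.h := by
    have : g • (k' • (r • x + s • w) - w) = r • (k • x) + (k * s) • w - g • w := by
      rw [hk']
      module
    rw [this, hx, hbez]
    module
  obtain ⟨c', hc1, hc2⟩ := h_prim A hg0 hu
  have hk'ne : k' ≠ 0 := by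
    rintro rfl
    exact hk (by rw [hk', mul_zero])
  have hw2 : w = k' • (r • x + s • w) - c' • A.h := by
    rw [← hc2]; abel
  -- maximality gives `k' = 1` or `-1`
  have hk1 : k'.natAbs = 1 := by
    by_contra hcon
    have hpos : 0 < k'.natAbs := Int.natAbs_pos.mpr hk'ne
    have h2 : 1 < k'.natAbs := by omega
    have hmem : M * k'.natAbs ∈ S := by
      refine ⟨Nat.mul_pos hM0 hpos, ?_⟩
      have hsgn : (k'.natAbs : ℤ) * k'.sign = k' := by
        rw [mul_comm]; exact Int.sign_mul_natAbs k'
      refine ⟨k'.sign • (r • x + s • w), l - M * c', ?_⟩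
      have hv2 : v = (M : ℤ) • (k' • (r • x + s • w) - c' • A.h) + l • A.h := by
        rw [← hw2]; exact hw
      have hcast : ((M * k'.natAbs : ℕ) : ℤ) • (k'.sign • (r • x + s • w))
          = (M : ℤ) • (k' • (r • x + s • w)) := by
        rw [Nat.cast_mul, smul_smul, mul_assoc, hsgn, mul_smul]
      rw [hcast, hv2, smul_sub, sub_smul, mul_smul]
      abel
    have h3 := hMmax hmem (Nat.le_mul_of_pos_right M hpos)
    have h4 : M * 1 < M * k'.natAbs := Nat.mul_lt_mul_of_pos_left h2 hM0
    simp at h4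
    omega
  have hk1' : k' = 1 ∨ k' = -1 := Int.natAbs_eq_iff.mp hk1 |> fun h => by simpa using h
  have hfin2 : ∀ β : ℤ, k • (x - β • w) = a • A.h → ∃ a' b' : ℤ, x = a' • A.h + b' • w := by
    intro β hβ
    obtain ⟨c2, _, h2⟩ := h_prim A hk hβ
    exact ⟨c2, β, by rw [← h2]; abel⟩
  rcases hk1' with h1 | h1
  · apply hfin2 b'
    have : b = k * b' := by rw [hk', h1, hb']; ring
    rw [smul_sub, hx, this]
    module
  · apply hfin2 (-b')
    have : b = k * (-b') := by rw [hk', h1, hb']; ring
    rw [smul_sub, hx, this]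
    module

theorem hasHilbertSquare_of (A : CubicLattice L) (v : L) (n : ℤ)
    (h : A.disc v = 2 * n ^ 2 + 2 * n + 2) : A.HasHilbertSquare := by
  have hpos : 0 < A.disc v := by rw [h]; nlinarith [sq_nonneg (2 * n + 1)]
  obtain ⟨w, m, hm, hsat, hmw⟩ := exists_saturated A v hpos
  refine ⟨A.disc w, ⟨?_, w, hsat, rfl⟩, m, n, hm, by rw [hmw, h]⟩
  by_contra hcon
  push Not at hcon
  have : m ^ 2 * A.disc w ≤ 0 := mul_nonpos_of_nonneg_of_nonpos (by positivity) hcon
  linarith

/-! ### The arithmetic of the untwisting -/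

/-- The value of the discriminant at `x P + T`. -/
theorem disc_add (A : CubicLattice L) (P T : L) (x : ℤ) :
    A.disc (x • P + T) = x ^ 2 * A.disc P
      + 2 * x * (3 * A.form P T - A.form A.h P * A.form A.h T) + A.disc T := by
  simp only [CubicLattice.disc, map_add, map_zsmul, AddMonoidHom.add_apply,
    AddMonoidHom.coe_smul, Pi.smul_apply, smul_eq_mul, A.symm T P]
  ring

theorem disc_even (A : CubicLattice L) (T : L) : Even (A.disc T) := by
  have h1 := A.char T
  have h2 : A.form T A.h = A.form A.h T := A.symm _ _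
  rw [h2] at h1
  have h3 : A.disc T = 2 * A.form T T + (A.form T T - A.form A.h T)
      + (A.form A.h T - A.form A.h T ^ 2) := by
    simp only [CubicLattice.disc]; ring
  rw [h3]
  refine Even.add (Even.add (even_two_mul _) h1) ?_
  have h4 : A.form A.h T - A.form A.h T ^ 2 = -(A.form A.h T * (A.form A.h T - 1)) := by ring
  rw [h4]
  exact (Int.even_mul_pred_self _).neg

theorem lemA (A : CubicLattice L) (P T : L) (k j : ℤ) (hP : A.disc P = 2 * k ^ 2)
    (hT : 3 * A.form P T - A.form A.h P * A.form A.h T = k * (2 * j + 1) - 1) :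
    A.HasHilbertSquare := by
  obtain ⟨c, hc⟩ := disc_even A T
  refine hasHilbertSquare_of A ((c - 1 - j - j ^ 2) • P + T)
    (k * (c - 1 - j - j ^ 2) + j) ?_
  rw [disc_add, hP, hT, hc]
  ring

theorem lemB (A : CubicLattice L) (P T : L) (k j : ℤ) (hP : A.disc P = 2 * (3 * k) ^ 2)
    (hT : 3 * A.form P T - A.form A.h P * A.form A.h T = 3 * (k * (2 * j + 1) - 1))
    (h3 : (3 : ℤ) ∣ A.form A.h T ^ 2 - (1 + j + j ^ 2)) : A.HasHilbertSquare := by
  obtain ⟨c, hc⟩ := disc_even A T
  have h4 : (3 : ℤ) ∣ c - 1 - j - j ^ 2 := by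
    have h5 : (3 : ℤ) ∣ c - A.form A.h T ^ 2 := by
      have : c + c = 3 * A.form T T - A.form A.h T ^ 2 := by rw [← hc]; rfl
      omega
    have h6 : c - 1 - j - j ^ 2 = (c - A.form A.h T ^ 2)
        + (A.form A.h T ^ 2 - (1 + j + j ^ 2)) := by ring
    rw [h6]
    exact dvd_add h5 h3
  obtain ⟨x, hx⟩ := h4
  have hc' : c = 3 * x + 1 + j + j ^ 2 := by linarith
  refine hasHilbertSquare_of A (x • P + T) (3 * k * x + j) ?_
  rw [disc_add, hP, hT, hc, hc']
  ring

theorem exists_mult {b k : ℤ} (h : IsCoprime b k) :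
    ∃ y j : ℤ, y * b = k * (2 * j + 1) - 1 := by
  obtain ⟨u, v, huv⟩ := h
  rcases Int.even_or_odd v with hv | hv
  · rcases Int.even_or_odd b with hb | hb
    · exfalso
      have : Even (u * b + v * k) := (hb.mul_left u).add (hv.mul_right k)
      rw [huv] at this
      exact absurd this (by decide)
    · obtain ⟨j, hj⟩ := (Even.add_odd hv hb)
      refine ⟨-u + k, j, ?_⟩
      rw [← hj]
      linear_combination -huv
  · obtain ⟨j, hj⟩ := hv
    refine ⟨-u, j, ?_⟩
    rw [← hj]
    linear_combination -huv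

theorem mod_three : ∀ y j k b a : ZMod 3, y * b = k * (2 * j + 1) - 1 → ¬ (b = 0 ∧ a = 0) →
    ∃ z : ZMod 3, ((y + 2 * k * z) * a) ^ 2 - (1 + (j + b * z) + (j + b * z) ^ 2) = 0 := by
  decide

theorem exists_mult_three {b k a : ℤ} (h : IsCoprime b k) (ha : ¬ (3 ∣ b ∧ 3 ∣ a)) :
    ∃ y j : ℤ, y * b = k * (2 * j + 1) - 1 ∧ (3 : ℤ) ∣ (y * a) ^ 2 - (1 + j + j ^ 2) := by
  obtain ⟨y, j, hyj⟩ := exists_mult h
  have h1 : (y : ZMod 3) * b = k * (2 * j + 1) - 1 := by exact_mod_cast congrArg Int.cast hyj
  have h2 : ¬ ((b : ZMod 3) = 0 ∧ (a : ZMod 3) = 0) := by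
    rintro ⟨hb, ha'⟩
    exact ha ⟨(ZMod.intCast_zmod_eq_zero_iff_dvd b 3).mp hb,
      (ZMod.intCast_zmod_eq_zero_iff_dvd a 3).mp ha'⟩
  obtain ⟨z, hz⟩ := mod_three _ _ _ _ _ h1 h2
  obtain ⟨Z, hZ⟩ : ∃ Z : ℤ, (Z : ZMod 3) = z := ⟨z.val, by simp⟩
  refine ⟨y + 2 * k * Z, j + b * Z, by linear_combination hyj, ?_⟩
  refine (ZMod.intCast_zmod_eq_zero_iff_dvd _ 3).mp ?_
  push_cast
  rw [hZ]
  exact hz

theorem genA (A : CubicLattice L) (P T : L) (k : ℤ) (hP : A.disc P = 2 * k ^ 2)
    (hT : IsCoprime (3 * A.form P T - A.form A.h P * A.form A.h T) k) :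
    A.HasHilbertSquare := by
  obtain ⟨y, j, hyj⟩ := exists_mult hT
  refine lemA A P (y • T) k j hP ?_
  simp only [map_zsmul, smul_eq_mul]
  linear_combination hyj

theorem genB (A : CubicLattice L) (P T : L) (k b : ℤ) (hP : A.disc P = 2 * (3 * k) ^ 2)
    (hb : 3 * A.form P T - A.form A.h P * A.form A.h T = 3 * b)
    (hT : IsCoprime b k) (ha : ¬ (3 ∣ b ∧ 3 ∣ A.form A.h T)) :
    A.HasHilbertSquare := by
  obtain ⟨y, j, hyj, hmod⟩ := exists_mult_three hT ha
  refine lemB A P (y • T) k j hP ?_ ?_
  · simp only [map_zsmul, smul_eq_mul]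
    linear_combination 3 * hyj + y * hb
  · simpa only [map_zsmul, smul_eq_mul] using hmod

/-- The loci of cubic fourfolds on which the Brauer class of the associated twisted K3 surface
of order `k`, discriminant `2k^2`, vanishes are contained in the union of the divisors `C_d`
with `d` as in (***). -/
theorem result (L : Type) [AddCommGroup L] (A : CubicLattice L) :
    -- a plane `P` and a class `T` of odd intersection with the residual quadrics `h - P`
    (∀ P T : L, A.form A.h P = 1 → A.form P P = 3 → Odd (A.form T (A.h - P)) →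
      A.HasHilbertSquare) ∧
    -- a sextic elliptic ruled surface `S` and a class `T` whose intersection number with the
    -- class `4h - S` of the sextic del Pezzo surfaces is prime to three
    (∀ S T : L, A.form A.h S = 6 → A.form S S = 18 → ¬ (3 : ℤ) ∣ A.form T (4 • A.h - S) →
      A.HasHilbertSquare) ∧
    -- discriminant `2k^2`, any `k > 0`
    (∀ (P T : L) (k : ℤ), 0 < k → A.disc P = 2 * k ^ 2 →
      IsCoprime (3 * A.form P T - A.form A.h P * A.form A.h T) k → A.HasHilbertSquare) ∧
    -- discriminant `2(3k)^2`, any `k > 0`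
    (∀ (P T : L) (k b : ℤ), 0 < k → A.disc P = 2 * (3 * k) ^ 2 →
      3 * A.form P T - A.form A.h P * A.form A.h T = 3 * b → IsCoprime b k →
      ¬ (3 ∣ b ∧ 3 ∣ A.form A.h T) → A.HasHilbertSquare) := by
  refine ⟨?_, ?_, fun P T k _ hP hT => genA A P T k hP hT,
    fun P T k b _ hP hb hT ha => genB A P T k b hP hb hT ha⟩
  · intro P T h1 h2 h3
    refine genA A P T 2 (by simp only [CubicLattice.disc, h1, h2]; norm_num) ?_
    rw [map_sub, A.symm T A.h, A.symm T P] at h3
    rw [h1]
    have h4 : Odd (3 * A.form P T - 1 * A.form A.h T) := by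
      have : 3 * A.form P T - 1 * A.form A.h T
          = (A.form A.h T - A.form P T) + 2 * (2 * A.form P T - A.form A.h T) := by ring
      rw [this]
      exact h3.add_even (even_two_mul _)
    exact Int.isCoprime_iff_gcd_eq_one.mpr (by
      rw [Int.gcd_comm]
      exact (Int.isCoprime_iff_gcd_eq_one.mp (Int.isCoprime_two_left.mpr h4)))
  · intro S T h1 h2 h3
    refine genB A S T 1 (A.form S T - 2 * A.form A.h T)
      (by simp only [CubicLattice.disc, h1, h2]; norm_num) (by rw [h1]; ring)
      isCoprime_one_right ?_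
    rintro ⟨h4, h5⟩
    apply h3
    rw [map_sub, map_nsmul, A.symm T A.h, A.symm T S]
    simp only [nsmul_eq_mul]
    push_cast
    omega

end Pool.Agent.Results.MP_4d0966_ag.UntwistedLoci
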